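import Pool.Agent.RDO.Stmts

/-!
# Squad RDO, row NCM (helper21)

A nearest centre can be chosen measurably: induction on the number of the centres.
-/

set_option autoImplicit false

open MeasureTheory

namespace Pool.Agent.RDO.H21

/-- NCM. -/
theorem ncm : NcmStmt := by
  intro n
  induction n with
  | zero =>
    intro c
    exact ⟨fun _ => 0, measurable_const, fun z i => by rw [Fin.fin_one_eq_zero i]⟩
  | succ n ih =>
    intro c
    obtain ⟨k, hk, hn⟩ := ih (fun i => c i.castSucc)
    have hk' : ∀ z (i : Fin (n + 1)), dist z (c (k z).castSucc) ≤ dist z (c i.castSucc) := hn
    refine ⟨fun z => if dist z (c (Fin.last (n + 1))) < dist z (c (k z).castSucc) then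
      Fin.last (n + 1) else (k z).castSucc, ?_, ?_⟩
    · have h1 : Measurable (fun z : P2 => dist z (c (Fin.last (n + 1)))) :=
        (continuous_id.dist continuous_const).measurable
      have h2 : Measurable (fun z : P2 => c (k z).castSucc) :=
        (measurable_of_finite (fun i : Fin (n + 1) => c i.castSucc)).comp hk
      have h3 : Measurable (fun z : P2 => dist z (c (k z).castSucc)) := measurable_id.dist h2
      exact Measurable.ite (measurableSet_lt h1 h3) measurable_const
        ((measurable_of_finite (fun i : Fin (n + 1) => i.castSucc)).comp hk)
    · intro z i
      by_cases hz : dist z (c (Fin.last (n + 1))) < dist z (c (k z).castSucc)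
      · simp only [hz, if_true]
        induction i using Fin.lastCases with
        | last => exact le_rfl
        | cast j => exact hz.le.trans (hk' z j)
      · simp only [hz, if_false]
        induction i using Fin.lastCases with
        | last => exact not_lt.mp hz
        | cast j => exact hk' z j

end Pool.Agent.RDO.H21
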